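import Pool.Agent.Helper34.SQ.GoalsT

/-!
Project SQ (MP_bb32d1_al), packet ST (exchange of `E_c F_c` and `F_c E_c` when `Tr_zeta(m) = 0`).
-/

set_option autoImplicit false
set_option linter.unusedSectionVars false

namespace Pool.Agent.Helper93.SQ

noncomputable section

open Matrix Pool.Agent.Helper19.SQ Pool.Agent.Helper34.SQ

variable {A : Type} [Ring A] [Algebra ℂ A] {ι : Type} [Fintype ι] [DecidableEq ι] {l : ℕ}

theorem ext_fun {σ σ' : ι × ι → (A →ₗ[ℂ] ℂ)} (h : ∀ y b, σ y b = σ' y b) : σ = σ' :=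
  funext fun y => LinearMap.ext fun b => h y b

theorem act_zero {κ κ' : Type} [Fintype κ] [DecidableEq κ] [Fintype κ'] [DecidableEq κ']
    (M : Matrix κ κ' A) : act (0 : κ → (A →ₗ[ℂ] ℂ)) M = 0 := by
  funext y
  ext b
  rw [act_apply]
  simp

/-- the value of `σ` composed with a scalar matrix -/
theorem act_sc (σ : ι × ι → (A →ₗ[ℂ] ℂ)) (S : Matrix (ι × ι) (ι × ι) ℂ) (y : ι × ι) (b : A) :
    act σ (sc A S) y b = ∑ x, S x y * σ x b := by
  rw [act_apply]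
  refine Finset.sum_congr rfl fun x _ => ?_
  have h : sc A S x y * b = S x y • b := by
    simp only [sc, Matrix.map_apply]
    rw [Algebra.smul_def]
  rw [h, map_smul, smul_eq_mul]

theorem act_diag (C : Core A ι l) (m : ZMod l → ℤ) (σ : ι × ι → (A →ₗ[ℂ] ℂ))
    (h3 : ∀ b y, σ y (b * C.e m) = σ y b) (M : Matrix (ι × ι) (ι × ι) A) :
    act σ (M * Matrix.diagonal (fun _ => C.e m)) = act σ M := by
  refine ext_fun fun y b => ?_
  rw [act_apply, act_apply]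
  refine Finset.sum_congr rfl fun x _ => ?_
  rw [Matrix.mul_diagonal, mul_assoc, C.e_cen, ← mul_assoc, h3]

theorem X1_diag (a : A) : X1 (Matrix.diagonal fun _ : ι => a) =
    Matrix.diagonal (fun _ : ι × ι => a) := by
  ext x y
  simp only [X1, Matrix.of_apply, Matrix.diagonal_apply]
  by_cases h1 : x.1 = y.1
  · rw [if_pos h1]
    by_cases h2 : x.2 = y.2
    · rw [if_pos h2, if_pos (Prod.ext h1 h2)]
    · rw [if_neg h2, if_neg fun h => h2 (congrArg Prod.snd h)]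
  · rw [if_neg h1, if_neg fun h => h1 (congrArg Prod.fst h)]

theorem X1_mul (M M' : Matrix ι ι A) : X1 (M * M') = X1 M * X1 M' := by
  have := map_mul (bd (A := A) (ι := ι)) M M'
  rw [bd_eq, bd_eq, bd_eq] at this
  exact this

/-- `p_c (X1)` acts as `1 ⊗ δ (e (m - α))` on the functionals of the block `m` -/
theorem act_pev (C : Core A ι l) (c : ZMod l) (m : ZMod l → ℤ) (σ : ι × ι → (A →ₗ[ℂ] ℂ))
    (h3 : ∀ b y, σ y (b * C.e m) = σ y b) :
    act σ (pev (C.pc c) (X1 C.X)) = act σ (X1 (C.δ (C.e (m - al c)))) := by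
  rw [pev_X1, ← act_diag C m σ h3, ← act_diag C m σ h3 (X1 (C.δ (C.e (m - al c)))), ← X1_diag,
    ← X1_mul, ← X1_mul, C.BL1 c m]

theorem act_D2 (C : Core A ι l) (m : ZMod l → ℤ) (σ : ι × ι → (A →ₗ[ℂ] ℂ))
    (h1 : ∀ a b y, act σ (D2 C.δ C.ε a) y b = σ y (b * a))
    (h3 : ∀ b y, σ y (b * C.e m) = σ y b) : act σ (D2 C.δ C.ε (C.e m)) = σ :=
  ext_fun fun y b => by rw [h1, h3]

/-- equivariance after a scalar matrix -/
theorem t2_sc (f g : ι × ι → ℂ) (ζ : ℂ) (φ : A → A) (S : Matrix (ι × ι) (ι × ι) ℂ)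
    (hS : ∀ x y, S x y ≠ 0 → g y = f x) (σ : ι × ι → (A →ₗ[ℂ] ℂ))
    (h : ∀ b y, f y * σ y (φ b) = ζ * σ y b) (b : A) (y : ι × ι) :
    g y * act σ (sc A S) y (φ b) = ζ * act σ (sc A S) y b := by
  rw [act_sc, act_sc, Finset.mul_sum, Finset.mul_sum]
  refine Finset.sum_congr rfl fun x _ => ?_
  by_cases h0 : S x y = 0
  · rw [h0]; ring
  · rw [hS x y h0]
    have := h b x
    calc f x * (S x y * σ x (φ b)) = S x y * (f x * σ x (φ b)) := by ring
      _ = S x y * (ζ * σ x b) := by rw [this]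
      _ = ζ * (S x y * σ x b) := by ring

theorem t3_sc (e : A) (S : Matrix (ι × ι) (ι × ι) ℂ) (σ : ι × ι → (A →ₗ[ℂ] ℂ))
    (h : ∀ b y, σ y (b * e) = σ y b) (b : A) (y : ι × ι) :
    act σ (sc A S) y (b * e) = act σ (sc A S) y b := by
  rw [act_sc, act_sc]
  exact Finset.sum_congr rfl fun x _ => by rw [h]

theorem t1_sc (D D' : A → Matrix (ι × ι) (ι × ι) A) (S : Matrix (ι × ι) (ι × ι) ℂ)
    (hS : ∀ a, sc A S * D' a = D a * sc A S) (σ : ι × ι → (A →ₗ[ℂ] ℂ))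
    (h : ∀ a b y, act σ (D a) y b = σ y (b * a)) (a b : A) (y : ι × ι) :
    act (act σ (sc A S)) (D' a) y b = act σ (sc A S) y (b * a) := by
  rw [act_act, hS, ← act_act, act_sc, act_sc]
  exact Finset.sum_congr rfl fun x _ => by rw [h]

theorem t_st (hCORE1 : S_CORE1) (hBLX : S_BLX) (hSTF : S_STF) : Pool.Agent.Helper34.SQ.S_ST := by
  intro A _ _ ι _ _ l C ζ c m hTr
  obtain ⟨c1, c2, c3, c4, c5, c6⟩ := hCORE1 A ι l C
  have hST : sc A C.S * sc A C.T = 1 := by rw [sc_mul, C.ST, sc_one]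
  have hTS : sc A C.T * sc A C.S = 1 := by rw [sc_mul, C.TS, sc_one]
  have θne : ∀ i, (C.θ i : ℂ) ≠ 0 := fun i => (C.θ i).ne_zero
  constructor
  · -- (b): EF = 0 implies FE = 0
    intro hEF σ hσ
    have s1 := t1_sc (D2 C.δ C.ε) (D1 C.δ C.ε) C.S C.inter σ hσ.t1
    have s2 := t2_sc (fun y => (C.θ y.1 : ℂ) * (C.θ y.2 : ℂ)⁻¹)
      (fun y => (C.θ y.1 : ℂ)⁻¹ * (C.θ y.2 : ℂ)) ζ C.φ C.S (fun x y hxy => by
        have h := C.φS x y hxy
        have a1 := θne x.1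
        have a2 := θne x.2
        have a3 := θne y.1
        have a4 := θne y.2
        change (C.θ y.1 : ℂ)⁻¹ * (C.θ y.2 : ℂ) = (C.θ x.1 : ℂ) * (C.θ x.2 : ℂ)⁻¹
        field_simp
        linear_combination (-1 : ℂ) * h) σ hσ.t2
    have s3 := t3_sc (C.e m) C.S σ hσ.t3
    have hD2 := act_D2 C m σ hσ.t1 hσ.t3
    have hcomm : pev (C.pc c) (X2 C.ε C.X) * D2 C.δ C.ε (C.e m) =
        D2 C.δ C.ε (C.e m) * pev (C.pc c) (X2 C.ε C.X) := pev_comm (c2 (C.e m)) _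
    have hX2 : act σ (pev (C.pc c) (X2 C.ε C.X)) = σ := by
      have h1 : act σ (pev (C.pc c) (X2 C.ε C.X)) =
          act (act σ (D2 C.δ C.ε (C.e m))) (pev (C.pc c) (X2 C.ε C.X)) := by rw [hD2]
      rw [h1, act_act, ← hcomm, hBLX A ι l C c m, ← act_act, hD2, hσ.t4]
    have hX1p := hSTF A ι l C ζ m hTr σ hσ.t1 hσ.t2 hσ.t3 (C.pc c)
    rw [hX2, c5] at hX1p
    have s4 : act (act σ (sc A C.S)) (X1 (C.δ (C.e (m - al c)))) = act σ (sc A C.S) := by
      rw [← act_pev C c m _ s3, act_act]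
      have h1 : sc A C.S * pev (C.pc c) (X1 C.X) =
          (sc A C.S * pev (C.pc c) (X1 C.X) * sc A C.T) * sc A C.S := by
        rw [mul_assoc _ (sc A C.T), hTS, mul_one]
      rw [h1, ← act_act, ← hX1p]
    have hz := hEF _ ⟨s1, s2, s3, s4⟩
    have h2 : act (act σ (sc A C.S)) (sc A C.T) = σ := by
      rw [act_act, hST, act_one]
    rw [← h2, hz, act_zero]
  · -- (a): FE = 0 implies EF = 0
    intro hFE σ hσ
    have s1 := t1_sc (D1 C.δ C.ε) (D2 C.δ C.ε) C.T c3 σ hσ.t1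
    have s2 := t2_sc (fun y => (C.θ y.1 : ℂ)⁻¹ * (C.θ y.2 : ℂ))
      (fun y => (C.θ y.1 : ℂ) * (C.θ y.2 : ℂ)⁻¹) ζ C.φ C.T (fun x y hxy => by
        have h := C.φT x y hxy
        have a1 := θne x.1
        have a2 := θne x.2
        have a3 := θne y.1
        have a4 := θne y.2
        change (C.θ y.1 : ℂ) * (C.θ y.2 : ℂ)⁻¹ = (C.θ x.1 : ℂ)⁻¹ * (C.θ x.2 : ℂ)
        field_simp
        linear_combination h) σ hσ.t2
    have s3 := t3_sc (C.e m) C.T σ hσ.t3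
    have hD2 := act_D2 C m _ s1 s3
    have hP : act σ (pev (C.pc c) (X1 C.X)) = σ := by
      rw [act_pev C c m σ hσ.t3, hσ.t4]
    have hX1p : act (act σ (sc A C.T)) (pev (C.pc c) (sc A C.S * X1 C.X * sc A C.T)) =
        act σ (sc A C.T) := by
      rw [c5, act_act]
      have h1 : sc A C.T * (sc A C.S * pev (C.pc c) (X1 C.X) * sc A C.T) =
          pev (C.pc c) (X1 C.X) * sc A C.T := by
        calc sc A C.T * (sc A C.S * pev (C.pc c) (X1 C.X) * sc A C.T)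
            = (sc A C.T * sc A C.S) * pev (C.pc c) (X1 C.X) * sc A C.T := by
              simp only [mul_assoc]
          _ = pev (C.pc c) (X1 C.X) * sc A C.T := by rw [hTS, one_mul]
      rw [h1, ← act_act, hP]
    have hX2 := hSTF A ι l C ζ m hTr (act σ (sc A C.T)) s1 s2 s3 (C.pc c)
    rw [hX1p] at hX2
    have s4 : act (act σ (sc A C.T)) (X1 (C.ε (C.e (m + al c)))) = act σ (sc A C.T) := by
      have h1 : act (act σ (sc A C.T)) (X1 (C.ε (C.e (m + al c)))) =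
          act (act (act σ (sc A C.T)) (D2 C.δ C.ε (C.e m))) (X1 (C.ε (C.e (m + al c)))) := by
        rw [hD2]
      rw [h1, act_act (act σ (sc A C.T)), ← hBLX A ι l C c m, ← act_act (act σ (sc A C.T)), hX2,
        hD2]
    have hz := hFE _ ⟨s1, s2, s3, s4⟩
    have h2 : act (act σ (sc A C.T)) (sc A C.S) = σ := by
      rw [act_act, hTS, act_one]
    rw [← h2, hz, act_zero]

end

end Pool.Agent.Helper93.SQ
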