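import Pool.Agent.Helper84.SQ.GoalsD

/-!
# Packet SQ-FWR: the theorem of Frank and Wolfe
-/

namespace Pool.Agent.Helper93.SQ

open Pool.Agent.Helper84.SQ
open Filter Topology

/-- The sup norm and the sum of the squares. -/
theorem norm_sq_le {n : ℕ} (x : Fin n → ℝ) : ‖x‖ ^ 2 ≤ ∑ j, x j ^ 2 := by
  have h0 : 0 ≤ ∑ j, x j ^ 2 := Finset.sum_nonneg fun j _ => sq_nonneg _
  have h1 : ‖x‖ ≤ Real.sqrt (∑ j, x j ^ 2) := by
    rw [pi_norm_le_iff_of_nonneg (Real.sqrt_nonneg _)]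
    intro j
    rw [Real.norm_eq_abs]
    apply Real.le_sqrt_of_sq_le
    rw [sq_abs]
    exact Finset.single_le_sum (f := fun j => x j ^ 2) (fun i _ => sq_nonneg _)
      (Finset.mem_univ j)
  calc ‖x‖ ^ 2 ≤ Real.sqrt (∑ j, x j ^ 2) ^ 2 := by gcongr
    _ = ∑ j, x j ^ 2 := Real.sq_sqrt h0

/-- The regularised problem has a minimiser. -/
theorem reg_min {n : ℕ} (P : Set (Fin n → ℝ)) (hP : IsClosed P) (hne : P.Nonempty)
    (q h : Fin n → ℝ) (hq : ∀ j, 0 ≤ q j) (ε : ℝ) (hε : 0 < ε) :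
    ∃ x ∈ P, ∀ y ∈ P, ∑ j, (q j * x j ^ 2 + h j * x j) + ε * ∑ j, x j ^ 2 ≤
      ∑ j, (q j * y j ^ 2 + h j * y j) + ε * ∑ j, y j ^ 2 := by
  obtain ⟨x0, hx0⟩ := hne
  obtain ⟨f, hf⟩ : ∃ f : (Fin n → ℝ) → ℝ, f = fun x =>
    ∑ j, (q j * x j ^ 2 + h j * x j) + ε * ∑ j, x j ^ 2 := ⟨_, rfl⟩
  have hc : Continuous f := by rw [hf]; fun_prop
  obtain ⟨H, hH⟩ : ∃ H : ℝ, H = ∑ j, |h j| := ⟨_, rfl⟩
  have hH0 : 0 ≤ H := by rw [hH]; exact Finset.sum_nonneg fun j _ => abs_nonneg _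
  obtain ⟨R, hR⟩ : ∃ R : ℝ, R = (H + |f x0|) / ε + 1 := ⟨_, rfl⟩
  have hev : ∀ᶠ x in cocompact (Fin n → ℝ) ⊓ 𝓟 P, f x0 ≤ f x := by
    apply Filter.Eventually.filter_mono inf_le_left
    have h1 : ∀ᶠ x in cocompact (Fin n → ℝ), R ≤ ‖x‖ :=
      (tendsto_norm_cocompact_atTop (E := Fin n → ℝ)).eventually_ge_atTop R
    filter_upwards [h1] with x hx
    have h2 : -(H * ‖x‖) ≤ ∑ j, h j * x j := by
      have h3 : |∑ j, h j * x j| ≤ H * ‖x‖ := by
        refine (Finset.abs_sum_le_sum_abs _ _).trans ?_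
        rw [hH, Finset.sum_mul]
        refine Finset.sum_le_sum fun j _ => ?_
        rw [abs_mul]
        exact mul_le_mul_of_nonneg_left (norm_le_pi_norm x j) (abs_nonneg _)
      exact (abs_le.1 h3).1
    have h4 : 0 ≤ ∑ j, q j * x j ^ 2 :=
      Finset.sum_nonneg fun j _ => mul_nonneg (hq j) (sq_nonneg _)
    have h5 : ε * ‖x‖ ^ 2 ≤ ε * ∑ j, x j ^ 2 := by
      have := norm_sq_le x
      gcongr
    have h6 : f x = ∑ j, q j * x j ^ 2 + ∑ j, h j * x j + ε * ∑ j, x j ^ 2 := by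
      rw [hf]
      simp only [Finset.sum_add_distrib]
    have h7 : H + |f x0| ≤ ε * ‖x‖ := by
      have h8 : (H + |f x0|) / ε ≤ ‖x‖ := by linarith
      rw [div_le_iff₀ hε] at h8
      linarith
    have h9 : 1 ≤ ‖x‖ := by
      have : 0 ≤ (H + |f x0|) / ε := by positivity
      linarith
    have h10 : |f x0| ≤ ε * ‖x‖ ^ 2 - H * ‖x‖ := by
      have : ε * ‖x‖ ^ 2 - H * ‖x‖ = (ε * ‖x‖ - H) * ‖x‖ := by ring
      rw [this]
      nlinarith [abs_nonneg (f x0)]
    have h11 := le_abs_self (f x0)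
    rw [h6]
    linarith
  obtain ⟨x, hxP, hmin⟩ := hc.continuousOn.exists_isMinOn' hP hx0 hev
  refine ⟨x, hxP, fun y hy => ?_⟩
  have := hmin hy
  simp only [Set.mem_ofPred_eq, hf] at this
  exact this

/-- Packet FWR. -/
theorem fwr : FwrStmt := by
  intro m n W w q h hq hr hne
  obtain ⟨P, hPd⟩ : ∃ P : Set (Fin n → ℝ), P = {x | ∀ i, ∑ j, W i j * x j ≤ w i} := ⟨_, rfl⟩
  have hmem : ∀ x, x ∈ P ↔ ∀ i, ∑ j, W i j * x j ≤ w i := by
    intro x; rw [hPd]; rfl
  have hPc : IsClosed P := by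
    have : P = ⋂ i, {x : Fin n → ℝ | ∑ j, W i j * x j ≤ w i} := by
      ext x
      rw [hmem, Set.mem_iInter]
      rfl
    rw [this]
    exact isClosed_iInter fun i => isClosed_le (by fun_prop) continuous_const
  have hPn : P.Nonempty := by
    obtain ⟨x, hx⟩ := hne
    exact ⟨x, (hmem x).2 hx⟩
  obtain ⟨x0, hx0⟩ := hPn
  have hε : ∀ k : ℕ, (0 : ℝ) < 1 / ((k : ℝ) + 1) := fun k => Nat.one_div_pos_of_nat
  choose x hxP hxm using fun k : ℕ => reg_min P hPc ⟨x0, hx0⟩ q h hq (1 / ((k : ℝ) + 1)) (hε k)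
  have hN : ∀ y : Fin n → ℝ, 0 ≤ ∑ j, y j ^ 2 := fun y =>
    Finset.sum_nonneg fun j _ => sq_nonneg _
  have hg1 : ∀ k, ∀ y ∈ P, ∑ j, (q j * x k j ^ 2 + h j * x k j) ≤
      ∑ j, (q j * y j ^ 2 + h j * y j) + 1 / ((k : ℝ) + 1) * ∑ j, y j ^ 2 := by
    intro k y hy
    have h1 := hxm k y hy
    have h2 : 0 ≤ 1 / ((k : ℝ) + 1) * ∑ j, x k j ^ 2 := mul_nonneg (hε k).le (hN _)
    linarith
  by_cases hb : ∃ R : ℝ, ∃ᶠ k in atTop, x k ∈ Metric.closedBall (0 : Fin n → ℝ) R
  · obtain ⟨R, hR⟩ := hb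
    obtain ⟨a, -, φ, hφ, ha⟩ := tendsto_subseq_of_frequently_bounded Metric.isBounded_closedBall hR
    have haP : a ∈ P := hPc.mem_of_tendsto ha (Eventually.of_forall fun k => hxP (φ k))
    refine ⟨a, (hmem a).1 haP, fun y hy => ?_⟩
    have hyP : y ∈ P := (hmem y).2 hy
    have h1 : Tendsto (fun k => ∑ j, (q j * x (φ k) j ^ 2 + h j * x (φ k) j)) atTop
        (𝓝 (∑ j, (q j * a j ^ 2 + h j * a j))) := by
      have hc : Continuous fun z : Fin n → ℝ => ∑ j, (q j * z j ^ 2 + h j * z j) := by fun_prop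
      exact (hc.tendsto a).comp ha
    have h2 : Tendsto (fun k => ∑ j, (q j * y j ^ 2 + h j * y j) +
        1 / (((φ k : ℕ) : ℝ) + 1) * ∑ j, y j ^ 2) atTop
        (𝓝 (∑ j, (q j * y j ^ 2 + h j * y j) + 0 * ∑ j, y j ^ 2)) := by
      apply Tendsto.const_add
      apply Tendsto.mul_const
      exact (tendsto_one_div_add_atTop_nhds_zero_nat (𝕜 := ℝ)).comp hφ.tendsto_atTop
    have h3 := le_of_tendsto_of_tendsto h1 h2 (Eventually.of_forall fun k => hg1 (φ k) y hyP)
    simpa using h3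
  · exfalso
    push Not at hb
    have hinf : Tendsto (fun k => ‖x k‖) atTop atTop := by
      rw [tendsto_atTop]
      intro R
      have h1 := hb R
      filter_upwards [h1] with k hk
      rw [mem_closedBall_zero_iff, not_le] at hk
      exact hk.le
    obtain ⟨u, -, φ, hφ, hu⟩ := tendsto_subseq_of_bounded (x := fun k => ‖x k‖⁻¹ • x k)
      (Metric.isBounded_closedBall (x := (0 : Fin n → ℝ)) (r := 1)) (fun k => by
        rw [mem_closedBall_zero_iff, norm_smul, norm_inv, norm_norm]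
        by_cases h0 : ‖x k‖ = 0
        · rw [h0]; simp
        · rw [inv_mul_cancel₀ h0])
    obtain ⟨s, hs⟩ : ∃ s : ℕ → ℝ, s = fun k => ‖x (φ k)‖ := ⟨_, rfl⟩
    have hsT : Tendsto s atTop atTop := by rw [hs]; exact hinf.comp hφ.tendsto_atTop
    have hspos : ∀ᶠ k in atTop, 0 < s k := hsT.eventually_gt_atTop 0
    have hlin : ∀ c : Fin n → ℝ, Tendsto (fun k => (s k)⁻¹ * ∑ j, c j * x (φ k) j) atTop
        (𝓝 (∑ j, c j * u j)) := by
      intro c
      have hc : Continuous fun z : Fin n → ℝ => ∑ j, c j * z j := by fun_prop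
      have h1 := (hc.tendsto u).comp hu
      refine h1.congr fun k => ?_
      simp only [Function.comp_apply, Pi.smul_apply, smul_eq_mul, hs]
      rw [Finset.mul_sum]
      exact Finset.sum_congr rfl fun j _ => by ring
    have hinv : Tendsto (fun k => (s k)⁻¹) atTop (𝓝 0) := tendsto_inv_atTop_zero.comp hsT
    have hunorm : ‖u‖ = 1 := by
      have h1 : Tendsto (fun k => ‖(fun k => ‖x k‖⁻¹ • x k) (φ k)‖) atTop (𝓝 ‖u‖) := hu.norm
      have h2 : Tendsto (fun k => ‖(fun k => ‖x k‖⁻¹ • x k) (φ k)‖) atTop (𝓝 1) := by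
        apply tendsto_const_nhds.congr'
        filter_upwards [hspos] with k hk
        rw [hs] at hk
        simp only [norm_smul, norm_inv, norm_norm]
        rw [inv_mul_cancel₀ hk.ne']
      exact tendsto_nhds_unique h1 h2
    have hu0 : 0 < ∑ j, u j * u j := by
      have h1 := norm_sq_le u
      rw [hunorm] at h1
      have h2 : ∑ j, u j * u j = ∑ j, u j ^ 2 := Finset.sum_congr rfl fun j _ => by ring
      rw [h2]
      linarith
    -- the direction is a recession direction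
    have hWu : ∀ i, ∑ j, W i j * u j ≤ 0 := by
      intro i
      have h1 := hlin (fun j => W i j)
      have h2 : Tendsto (fun k => (s k)⁻¹ * w i) atTop (𝓝 (0 * w i)) := hinv.mul_const _
      rw [zero_mul] at h2
      apply le_of_tendsto_of_tendsto h1 h2
      filter_upwards [hspos] with k hk
      exact mul_le_mul_of_nonneg_left ((hmem _).1 (hxP (φ k)) i) (inv_pos.2 hk).le
    obtain ⟨C, hC⟩ : ∃ C : ℝ, C = ∑ j, (q j * x0 j ^ 2 + h j * x0 j) + ∑ j, x0 j ^ 2 := ⟨_, rfl⟩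
    have hgC : ∀ k, ∑ j, (q j * x k j ^ 2 + h j * x k j) ≤ C := by
      intro k
      have h1 := hg1 k x0 hx0
      have h2 : 1 / ((k : ℝ) + 1) ≤ 1 := by
        rw [div_le_one (by positivity)]
        linarith [(Nat.cast_nonneg k : (0 : ℝ) ≤ k)]
      have h3 := mul_le_mul_of_nonneg_right h2 (hN x0)
      rw [hC]
      linarith
    have hqx : ∀ y : Fin n → ℝ, 0 ≤ ∑ j, q j * y j ^ 2 := fun y =>
      Finset.sum_nonneg fun j _ => mul_nonneg (hq j) (sq_nonneg _)
    have hqu : ∑ j, q j * u j ^ 2 ≤ 0 := by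
      have hc : Continuous fun z : Fin n → ℝ => ∑ j, q j * z j ^ 2 := by fun_prop
      have h1 := (hc.tendsto u).comp hu
      have h2 : Tendsto (fun k => (s k)⁻¹ * ((s k)⁻¹ * C) -
          (s k)⁻¹ * ((s k)⁻¹ * ∑ j, h j * x (φ k) j)) atTop (𝓝 (0 * (0 * C) -
            0 * ∑ j, h j * u j)) := by
        exact (hinv.mul (hinv.mul_const C)).sub (hinv.mul (hlin h))
      simp only [zero_mul, sub_zero] at h2
      apply le_of_tendsto_of_tendsto h1 h2
      filter_upwards [hspos] with k hk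
      have h3 := hgC (φ k)
      rw [Finset.sum_add_distrib] at h3
      have h4 : ((fun z : Fin n → ℝ => ∑ j, q j * z j ^ 2) ∘
          ((fun k => ‖x k‖⁻¹ • x k) ∘ φ)) k = (s k)⁻¹ * ((s k)⁻¹ * ∑ j, q j * x (φ k) j ^ 2) := by
        simp only [Function.comp_apply, Pi.smul_apply, smul_eq_mul, hs]
        rw [Finset.mul_sum, Finset.mul_sum]
        exact Finset.sum_congr rfl fun j _ => by ring
      rw [h4, ← mul_sub, ← mul_sub]
      have h5 : 0 ≤ (s k)⁻¹ := (inv_pos.2 hk).le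
      apply mul_le_mul_of_nonneg_left _ h5
      apply mul_le_mul_of_nonneg_left _ h5
      linarith
    have hquj : ∀ j, q j * u j ^ 2 = 0 := by
      have h1 : ∑ j, q j * u j ^ 2 = 0 := le_antisymm hqu (hqx u)
      rw [Finset.sum_eq_zero_iff_of_nonneg fun j _ => mul_nonneg (hq j) (sq_nonneg _)] at h1
      exact fun j => h1 j (Finset.mem_univ j)
    have hquj' : ∀ j, q j ≠ 0 → u j = 0 := by
      intro j hj
      have := hquj j
      rcases mul_eq_zero.1 this with h1 | h1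
      · exact absurd h1 hj
      · exact pow_eq_zero_iff (two_ne_zero) |>.1 h1
    have hhu : ∑ j, h j * u j = 0 := by
      apply le_antisymm _ (hr u hWu hquj')
      have h2 : Tendsto (fun k => (s k)⁻¹ * C) atTop (𝓝 (0 * C)) := hinv.mul_const C
      rw [zero_mul] at h2
      apply le_of_tendsto_of_tendsto (hlin h) h2
      filter_upwards [hspos] with k hk
      apply mul_le_mul_of_nonneg_left _ (inv_pos.2 hk).le
      have h3 := hgC (φ k)
      rw [Finset.sum_add_distrib] at h3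
      linarith [hqx (x (φ k))]
    -- eventually `x - u` is better
    have hbig : ∀ c : Fin n → ℝ, ∀ᶠ k in atTop, s k * ((s k)⁻¹ * ∑ j, c j * x (φ k) j) =
        ∑ j, c j * x (φ k) j := by
      intro c
      filter_upwards [hspos] with k hk
      rw [← mul_assoc, mul_inv_cancel₀ hk.ne', one_mul]
    have hfea : ∀ i, ∀ᶠ k in atTop, ∑ j, W i j * (x (φ k) j - u j) ≤ w i := by
      intro i
      have e : ∀ k, ∑ j, W i j * (x (φ k) j - u j) =
          ∑ j, W i j * x (φ k) j - ∑ j, W i j * u j := by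
        intro k
        rw [← Finset.sum_sub_distrib]
        exact Finset.sum_congr rfl fun j _ => by ring
      simp only [e]
      rcases (hWu i).lt_or_eq with hlt | heq
      · have h1 : Tendsto (fun k => s k * ((s k)⁻¹ * ∑ j, W i j * x (φ k) j)) atTop atBot :=
          Filter.Tendsto.atTop_mul_neg hlt hsT (hlin (fun j => W i j))
        filter_upwards [h1.eventually_le_atBot (w i + ∑ j, W i j * u j), hbig (fun j => W i j)]
          with k hk1 hk2
        rw [hk2] at hk1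
        linarith
      · apply Eventually.of_forall
        intro k
        rw [heq]
        have := (hmem _).1 (hxP (φ k)) i
        linarith
    have hnorm : ∀ᶠ k in atTop, ∑ j, (x (φ k) j - u j) ^ 2 < ∑ j, x (φ k) j ^ 2 := by
      have h1 : Tendsto (fun k => s k * ((s k)⁻¹ * ∑ j, u j * x (φ k) j)) atTop atTop :=
        Filter.Tendsto.atTop_mul_pos hu0 hsT (hlin u)
      filter_upwards [h1.eventually_gt_atTop (∑ j, u j * u j), hbig u] with k hk1 hk2
      rw [hk2] at hk1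
      have e : ∑ j, (x (φ k) j - u j) ^ 2 = ∑ j, x (φ k) j ^ 2 - 2 * ∑ j, u j * x (φ k) j +
          ∑ j, u j * u j := by
        rw [Finset.mul_sum, ← Finset.sum_sub_distrib, ← Finset.sum_add_distrib]
        exact Finset.sum_congr rfl fun j _ => by ring
      rw [e]
      linarith
    obtain ⟨k, hk1, hk2⟩ := ((eventually_all.2 hfea).and hnorm).exists
    have hy : (fun j => x (φ k) j - u j) ∈ P := (hmem _).2 hk1
    have h1 := hxm (φ k) _ hy
    have h2 : ∑ j, (q j * (x (φ k) j - u j) ^ 2 + h j * (x (φ k) j - u j)) =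
        ∑ j, (q j * x (φ k) j ^ 2 + h j * x (φ k) j) := by
      have e : ∀ j, q j * (x (φ k) j - u j) ^ 2 + h j * (x (φ k) j - u j) =
          (q j * x (φ k) j ^ 2 + h j * x (φ k) j) - h j * u j := by
        intro j
        by_cases h0 : q j = 0
        · rw [h0]; ring
        · rw [hquj' j h0]; ring
      rw [Finset.sum_congr rfl fun j _ => e j, Finset.sum_sub_distrib, hhu, sub_zero]
    rw [h2] at h1
    have h3 := mul_lt_mul_of_pos_left hk2 (hε (φ k))
    linarith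

end Pool.Agent.Helper93.SQ
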