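import Pool.Agent.Helper84.SQ.GoalsB

/-!
# Packet SQ-OPA: the cutting planes find a good point
-/

namespace Pool.Agent.Helper93.SQ

open Pool.Agent.Helper84.SQ Pool.Agent.Helper81.CC Pool.Agent.Bin
open Pool.Agent.Helper92.FR (Qn Cst dot cut cini cen lv CpaStmt CpvStmt CWf VV CutR cent InS)

theorem stt_succ (N d : ℕ) (R : List Row) (F : Obj) (k : ℕ) :
    stt N d R F (k + 1) = cut d (stt N d R F k) (orc (pD N) R F (cen d (stt N d R F k))) := by
  unfold stt
  rw [Function.iterate_succ_apply']

theorem orc_len (hf : FhvStmt) {N d : ℕ} {R : List Row} {F : Obj} (ok : Ok N d R F) (D : ℕ)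
    {x : List Qn} (hx : x.length = d) : (orc D R F x).length = d := by
  unfold orc
  cases h : R.find? (fun r => !okr D x r) with
  | none =>
    simp only [Option.map_none, Option.getD_none]
    exact (hf d F x ok.lenF hx).2.1
  | some r =>
    simp only [Option.map_some, Option.getD_some]
    have hr := List.mem_of_find?_eq_some h
    exact ((hf d F x ok.lenF hx).2.2.2 D r (ok.len r hr)).2.1

theorem stt_wf (hf : FhvStmt) (hv : CpvStmt) {N d : ℕ} {R : List Row} {F : Obj}
    (ok : Ok N d R F) (k : ℕ) : CWf d (stt N d R F k) := by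
  induction k with
  | zero => exact ((hv d ok.d1).2 N).1
  | succ k ih =>
    rw [stt_succ]
    have h1 : (cen d (stt N d R F k)).length = d :=
      ((hv d ok.d1).1 (stt N d R F k) (List.replicate d Qn.zero) ih (by simp)).2.2.1
    exact ((hv d ok.d1).1 _ _ ih (orc_len hf ok (pD N) h1)).1

theorem cen_len (hf : FhvStmt) (hv : CpvStmt) {N d : ℕ} {R : List Row} {F : Obj}
    (ok : Ok N d R F) (k : ℕ) : (cen d (stt N d R F k)).length = d :=
  ((hv d ok.d1).1 (stt N d R F k) (List.replicate d Qn.zero) (stt_wf hf hv ok k)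
    (by simp)).2.2.1

/-- Packet OPA. -/
theorem opa (hf : FhvStmt) (hp : PlwStmt) (ha : CpaStmt) (hv : CpvStmt) : OpaStmt := by
  intro N d R F ok
  have hmem : ∀ x ∈ cens N d R F, ∃ k < pT N, cen d (stt N d R F k) = x ∧
      ∀ r ∈ R, okr (pD N) x r = true := by
    intro x hx
    unfold cens at hx
    rw [List.mem_filter, List.mem_map] at hx
    obtain ⟨⟨k, hk, hkx⟩, hall⟩ := hx
    exact ⟨k, List.mem_range.1 hk, hkx, fun r hr => (List.all_eq_true.1 hall) r hr⟩
  refine ⟨?_, ?_⟩
  · intro x hx
    obtain ⟨k, hk, hkx, hall⟩ := hmem x hx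
    have hl : x.length = d := by rw [← hkx]; exact cen_len hf hv ok k
    refine ⟨hl, fun r hr => ?_⟩
    exact ((hf d F x ok.lenF hl).2.2.2 (pD N) r (ok.len r hr)).1.1 (hall r hr)
  · intro y hy
    have hd : 1 ≤ d := ok.d1
    have hdN : d ≤ N := ok.dN
    have hyb : ∀ j, |((y j : ℤ) : ℝ)| ≤ 2 ^ N - 1 := by
      apply ok.bd (fun j => ((y j : ℤ) : ℝ))
      intro r hr
      have h1 := hy r hr
      have h2 : (∑ j, (lz d r.1 j : ℝ) * (y j : ℝ)) ≤ (Zn.val r.2 : ℝ) := by exact_mod_cast h1
      linarith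
    have hN2 : (d : ℝ) ≤ 2 ^ N := by
      have : d < 2 ^ N := lt_of_le_of_lt hdN Nat.lt_two_pow_self
      exact_mod_cast this.le
    obtain ⟨ρ, hρ⟩ : ∃ ρ : ℝ, ρ = 1 / 2 ^ (5 * N + 5) := ⟨_, rfl⟩
    have hρ0 : 0 < ρ := by rw [hρ]; positivity
    have hρ1 : ρ ≤ 1 / 2 := by
      rw [hρ]
      apply one_div_le_one_div_of_le (by norm_num)
      calc (2 : ℝ) = 2 ^ 1 := by norm_num
        _ ≤ 2 ^ (5 * N + 5) := pow_le_pow_right₀ (by norm_num) (by omega)
    have hpos : (0 : ℝ) < 2 ^ N := by positivity
    have hlog : 8 * ((d : ℝ) + 1) ^ 2 * (d * Real.log (2 * d * 2 ^ N / ρ)) < pT N := by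
      have h1 : 2 * (d : ℝ) * 2 ^ N / ρ ≤ 2 ^ (7 * N + 6) := by
        rw [hρ, div_div_eq_mul_div, div_one]
        calc 2 * (d : ℝ) * 2 ^ N * 2 ^ (5 * N + 5) ≤ 2 * (2 ^ N) * 2 ^ N * 2 ^ (5 * N + 5) := by
              gcongr
          _ = 2 ^ (7 * N + 6) := by
              rw [show 7 * N + 6 = 1 + N + N + (5 * N + 5) by ring,
                pow_add (2 : ℝ) (1 + N + N), pow_add (2 : ℝ) (1 + N), pow_add (2 : ℝ) 1, pow_one]
      have h0 : 0 < 2 * (d : ℝ) * 2 ^ N / ρ := by
        have : (0 : ℝ) < d := by exact_mod_cast hd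
        positivity
      have h2 : Real.log (2 * (d : ℝ) * 2 ^ N / ρ) ≤ 7 * N + 6 := by
        calc Real.log (2 * (d : ℝ) * 2 ^ N / ρ) ≤ Real.log (2 ^ (7 * N + 6)) :=
              Real.log_le_log h0 h1
          _ = ((7 * N + 6 : ℕ) : ℝ) * Real.log 2 := by rw [Real.log_pow]
          _ ≤ ((7 * N + 6 : ℕ) : ℝ) * 1 := by
              gcongr
              linarith [Real.log_two_lt_d9]
          _ = 7 * N + 6 := by push_cast; ring
      have h3 : (d : ℝ) ≤ N := by exact_mod_cast hdN
      have h4 : (pT N : ℝ) = 8 * ((N : ℝ) + 1) ^ 2 * (N * (7 * N + 6)) + 1 := by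
        unfold pT
        push_cast
        ring
      have h5 : 8 * ((d : ℝ) + 1) ^ 2 * (d * Real.log (2 * d * 2 ^ N / ρ)) ≤
          8 * ((N : ℝ) + 1) ^ 2 * (N * (7 * N + 6)) := by
        have hN0 : (0 : ℝ) ≤ 7 * N + 6 := by positivity
        calc 8 * ((d : ℝ) + 1) ^ 2 * (d * Real.log (2 * d * 2 ^ N / ρ))
            ≤ 8 * ((d : ℝ) + 1) ^ 2 * (d * (7 * N + 6)) := by gcongr
          _ ≤ 8 * ((N : ℝ) + 1) ^ 2 * (N * (7 * N + 6)) := by gcongr
      rw [h4]
      linarith
    have hcut : ∀ k < pT N, CutR (VV d (stt N d R F k)) (VV d (stt N d R F (k + 1)))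
        (lv d (orc (pD N) R F (cen d (stt N d R F k)))) := by
      intro k _
      rw [stt_succ]
      exact ((hv d hd).1 _ _ (stt_wf hf hv ok k) (orc_len hf ok (pD N) (cen_len hf hv ok k))).2.1
    obtain ⟨k, hk, x, -, hxy, hg⟩ := (ha d hd (fun k => VV d (stt N d R F k))
      (fun k => lv d (orc (pD N) R F (cen d (stt N d R F k)))) (2 ^ N) (pT N) hpos
      (fun i l => ((hv d hd).2 N).2 i l) hcut).2 ρ (fun j => (y j : ℝ)) hρ0
      (fun l => ⟨by have := (abs_le.1 (hyb l)).1; linarith,
        by have := (abs_le.1 (hyb l)).2; linarith⟩) hlog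
    have hcl : (cen d (stt N d R F k)).length = d := cen_len hf hv ok k
    have hcent : lv d (cen d (stt N d R F k)) = cent (VV d (stt N d R F k)) :=
      ((hv d hd).1 (stt N d R F k) (List.replicate d Qn.zero) (stt_wf hf hv ok k)
        (by simp)).2.2.2
    obtain ⟨c, hc⟩ : ∃ c, c = cen d (stt N d R F k) := ⟨_, rfl⟩
    simp only [← hcent] at hg
    rw [← hc] at hg hcl
    have hF := hf d F c ok.lenF hcl
    have hdρ : (d : ℝ) * ρ ≤ 1 / 2 ^ pD N := by
      calc (d : ℝ) * ρ ≤ 2 ^ N * ρ := by gcongr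
        _ = 1 / 2 ^ pD N := by
          rw [hρ, pD, show 5 * N + 5 = N + (4 * N + 5) by ring, pow_add]
          field_simp
    have hnone : ∀ r ∈ R, okr (pD N) c r = true := by
      intro r hr
      by_contra hcon
      have hfind : ∃ r0, R.find? (fun r => !okr (pD N) c r) = some r0 := by
        cases h : R.find? (fun r => !okr (pD N) c r) with
        | none =>
          exfalso
          rw [List.find?_eq_none] at h
          have := h r hr
          simp only [Bool.not_eq_true', Bool.not_eq_false] at this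
          exact hcon this
        | some r0 => exact ⟨r0, rfl⟩
      obtain ⟨r0, h0⟩ := hfind
      have hr0 := List.mem_of_find?_eq_some h0
      have hr1 := List.find?_some h0
      have horc : orc (pD N) R F c = r0.1.map Zn.q := by
        unfold orc
        rw [h0]
        rfl
      have hFr := hF.2.2.2 (pD N) r0 (ok.len r0 hr0)
      rw [horc] at hg
      simp only [hFr.2.2] at hg
      have hbad : (Zn.val r0.2 : ℝ) + 1 / 2 ^ pD N < ∑ j, (lz d r0.1 j : ℝ) * lv d c j := by
        by_contra hle
        rw [not_lt] at hle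
        have := hFr.1.2 hle
        simp only [this, Bool.not_true] at hr1
        exact absurd hr1 (by simp)
      have hy0 : (∑ j, (lz d r0.1 j : ℝ) * (y j : ℝ)) ≤ (Zn.val r0.2 : ℝ) := by
        exact_mod_cast hy r0 hr0
      have htu : ∀ j, |(lz d r0.1 j : ℝ)| ≤ 1 := by
        intro j
        obtain ⟨i, hi⟩ := List.mem_iff_get.1 hr0
        have h5 := ok.tu.apply i j
        unfold MR at h5
        rw [hi] at h5
        obtain ⟨s, hs⟩ := h5
        rw [← hs]
        rcases s with _ | _ | _ <;> simp [SignType.cast]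
      have hsum : ∑ j, (lz d r0.1 j : ℝ) * (x j - y j) ≤ d * ρ := by
        calc ∑ j, (lz d r0.1 j : ℝ) * (x j - y j) ≤ ∑ _j : Fin d, ρ := by
              apply Finset.sum_le_sum
              intro j _
              have h6 := htu j
              have h7 := hxy j
              calc (lz d r0.1 j : ℝ) * (x j - y j) ≤ |(lz d r0.1 j : ℝ)| * (x j - y j) := by
                    apply mul_le_mul_of_nonneg_right (le_abs_self _)
                    linarith [h7.1]
                _ ≤ 1 * ρ := by
                    apply mul_le_mul h6 (by linarith [h7.2]) (by linarith [h7.1]) (by norm_num)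
                _ = ρ := one_mul _
          _ = d * ρ := by simp
      have e1 : ∑ j, (lz d r0.1 j : ℝ) * (x j - lv d c j) =
          ∑ j, (lz d r0.1 j : ℝ) * x j - ∑ j, (lz d r0.1 j : ℝ) * lv d c j := by
        rw [← Finset.sum_sub_distrib]
        exact Finset.sum_congr rfl fun j _ => by ring
      have e2 : ∑ j, (lz d r0.1 j : ℝ) * (x j - y j) =
          ∑ j, (lz d r0.1 j : ℝ) * x j - ∑ j, (lz d r0.1 j : ℝ) * y j := by
        rw [← Finset.sum_sub_distrib]
        exact Finset.sum_congr rfl fun j _ => by ring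
      rw [e1] at hg
      rw [e2] at hsum
      linarith
    refine ⟨c, ?_, ?_⟩
    · unfold cens
      rw [List.mem_filter, List.mem_map]
      refine ⟨⟨k, List.mem_range.2 hk, hc.symm⟩, ?_⟩
      rw [List.all_eq_true]
      exact hnone
    · have horc : orc (pD N) R F c = grd F c := by
        unfold orc
        have : R.find? (fun r => !okr (pD N) c r) = none := by
          rw [List.find?_eq_none]
          intro r hr
          simp [hnone r hr]
        rw [this]
        rfl
      rw [horc] at hg
      simp only [hF.2.2.1] at hg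
      have hq0 : ∀ j, 0 ≤ qF d F j := fun j => by unfold qF; positivity
      have h1 : plF d F (lv d c) ≤ plF d F x := by
        have h2 : plF d F (lv d c) +
            ∑ l, sl (qF d F l) (Pool.Agent.Helper84.SQ.hF d F l) (lv d c l) * (x l - lv d c l) ≤
            plF d F x := by
          unfold plF
          rw [← Finset.sum_add_distrib]
          apply Finset.sum_le_sum
          intro j _
          exact (hp (qF d F j) (Pool.Agent.Helper84.SQ.hF d F j) (lv d c j) (hq0 j)).1 (x j)
        linarith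
      have h3 : plF d F x ≤ (fv d F y : ℝ) + 1 / 4 := by
        have h4 : ∀ j, pl (qF d F j) (Pool.Agent.Helper84.SQ.hF d F j) (x j) ≤
            ((qF d F j : ℝ) * (y j : ℝ) ^ 2 + (Pool.Agent.Helper84.SQ.hF d F j : ℝ) * (y j : ℝ)) +
              2 ^ (2 * N + 3) * ρ := by
          intro j
          have h5 := hp (qF d F j) (Pool.Agent.Helper84.SQ.hF d F j) (x j) (hq0 j)
          have hx := hxy j
          have hfl : ⌊x j⌋ = y j := by
            rw [Int.floor_eq_iff]
            exact ⟨hx.1, by linarith [hx.2]⟩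
          have h6 := h5.2.2.1 (y j) (by rw [hfl]) (by rw [hfl]; omega)
          have hxa : |x j| ≤ 2 ^ N := by
            have := abs_le.1 (hyb j)
            rw [abs_le]
            constructor <;> linarith [hx.1, hx.2, this.1, this.2]
          have h7 := h5.2.2.2 N (ok.cq j) (ok.ch j) hxa
          have h8 : sl (qF d F j) (Pool.Agent.Helper84.SQ.hF d F j) (x j) * (x j - y j) ≤
              2 ^ (2 * N + 3) * ρ := by
            calc sl (qF d F j) (Pool.Agent.Helper84.SQ.hF d F j) (x j) * (x j - y j)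
                ≤ |sl (qF d F j) (Pool.Agent.Helper84.SQ.hF d F j) (x j)| * (x j - y j) := by
                  apply mul_le_mul_of_nonneg_right (le_abs_self _)
                  linarith [hx.1]
              _ ≤ 2 ^ (2 * N + 3) * ρ := by
                  apply mul_le_mul h7 (by linarith [hx.2]) (by linarith [hx.1]) (by positivity)
          have h9 : sl (qF d F j) (Pool.Agent.Helper84.SQ.hF d F j) (x j) * ((y j : ℝ) - x j) =
              -(sl (qF d F j) (Pool.Agent.Helper84.SQ.hF d F j) (x j) * (x j - y j)) := by ring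
          rw [h9] at h6
          linarith
        have h10 : (fv d F y : ℝ) = ∑ j, ((qF d F j : ℝ) * (y j : ℝ) ^ 2 +
            (Pool.Agent.Helper84.SQ.hF d F j : ℝ) * (y j : ℝ)) := by
          unfold fv
          push_cast
          rfl
        have h11 : (d : ℝ) * (2 ^ (2 * N + 3) * ρ) ≤ 1 / 4 := by
          calc (d : ℝ) * (2 ^ (2 * N + 3) * ρ) ≤ 2 ^ N * (2 ^ (2 * N + 3) * ρ) := by gcongr
            _ = 1 / 2 ^ (2 * N + 2) := by
              rw [hρ, show 5 * N + 5 = N + (2 * N + 3) + (2 * N + 2) by ring,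
                pow_add (2 : ℝ) (N + (2 * N + 3)), pow_add (2 : ℝ) N]
              field_simp
            _ ≤ 1 / 4 := by
              apply one_div_le_one_div_of_le (by norm_num)
              calc (4 : ℝ) = 2 ^ 2 := by norm_num
                _ ≤ 2 ^ (2 * N + 2) := pow_le_pow_right₀ (by norm_num) (by omega)
        calc plF d F x ≤ ∑ j, (((qF d F j : ℝ) * (y j : ℝ) ^ 2 +
              (Pool.Agent.Helper84.SQ.hF d F j : ℝ) * (y j : ℝ)) + 2 ^ (2 * N + 3) * ρ) :=
              Finset.sum_le_sum fun j _ => h4 j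
          _ = (fv d F y : ℝ) + d * (2 ^ (2 * N + 3) * ρ) := by
              rw [Finset.sum_add_distrib, h10]
              simp
          _ ≤ (fv d F y : ℝ) + 1 / 4 := by linarith
      linarith

end Pool.Agent.Helper93.SQ
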