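import Pool.Agent.Helper39.SQ.Goals

/-! Packet SQ-CORE for MP_9b2a83_an: the charging argument in the graph. -/

set_option autoImplicit false

namespace Pool.Agent.Helper93.SQ.CORE

open Pool.Agent.Helper39.SQ Pool.Agent.Helper39.Net Pool.Agent.Helper71.SN

theorem count {d D N h K g θ : ℕ} (hd : 1 ≤ d)
    (hcnt : ∀ a : Fin d → ℕ, ∑ c, a c < N + h → cnt d D N (K * g) a < θ)
    {M : Finset (Pt d)} {P : Finset (Pt d × Pt d)} (hC : Cfg d D N h K M P) (x : Pt d)
    (Q : Finset (Pt d × Pt d)) (hQP : ∀ q ∈ Q, q ∈ P) (hQx : ∀ q ∈ Q, q.1 = x)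
    (a : Fin d → ℕ) (ha : ∑ c, a c < N + h)
    (hQa : ∀ q ∈ Q, (Finset.univ.filter fun c => a c < agr 2 D (q.1 c) (q.2 c)).card ≤ K * g) :
    Q.card < θ := by
  classical
  refine lt_of_le_of_lt ?_ (hcnt a ha)
  rcases Q.eq_empty_or_nonempty with hQ | ⟨q₀, hq₀⟩
  · rw [hQ, Finset.card_empty]; exact Nat.zero_le _
  have hlt : ∀ q ∈ Q, ∀ c, agr 2 D (q.1 c) (q.2 c) < D := by
    intro q hq c
    refine lt_of_le_of_ne (agr_le _ _ _ _) fun he => ?_
    have h1 := eq_of_agr (hC.grid _ (hC.mem1 q (hQP q hq)) c)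
      (hC.grid _ (hC.mem2 q (hQP q hq)) c) he
    have h2 := hC.lt q (hQP q hq) c
    omega
  have hD : 0 < D := lt_of_le_of_lt (Nat.zero_le _) (hlt q₀ hq₀ ⟨0, by omega⟩)
  have hne : NeZero D := ⟨by omega⟩
  unfold cnt
  have hval : ∀ q ∈ Q, ∀ c, ((Fin.ofNat D (agr 2 D (q.1 c) (q.2 c)) : Fin D) : ℕ) =
      agr 2 D (q.1 c) (q.2 c) := by
    intro q hq c
    rw [Fin.val_ofNat]
    exact Nat.mod_eq_of_lt (hlt q hq c)
  apply Finset.card_le_card_of_injOn
    (fun q : Pt d × Pt d => fun c => (Fin.ofNat D (agr 2 D (q.1 c) (q.2 c)) : Fin D))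
  · intro q hq
    rw [Finset.mem_coe] at hq
    rw [Finset.mem_coe, Finset.mem_filter]
    refine ⟨Finset.mem_univ _, ?_, ?_⟩
    · rw [Finset.sum_congr rfl fun c _ => hval q hq c]
      exact hC.tot q (hQP q hq)
    · refine le_trans (le_of_eq ?_) (hQa q hq)
      congr 1
      refine Finset.filter_congr fun c _ => ?_
      rw [hval q hq c]
  · intro q hq q' hq' he
    rw [Finset.mem_coe] at hq hq'
    have he' : ∀ c, agr 2 D (q.1 c) (q.2 c) = agr 2 D (q'.1 c) (q'.2 c) := by
      intro c
      have := congrArg (fun u : Fin d → Fin D => ((u c : Fin D) : ℕ)) he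
      simp only at this
      rwa [hval q hq c, hval q' hq' c] at this
    have h1 : q.1 = q'.1 := by rw [hQx q hq, hQx q' hq']
    rcases hC.only q (hQP q hq) q'.2 (hC.mem2 q' (hQP q' hq')) (by
      intro c
      rw [he' c, h1]) with h2 | h2
    · exfalso
      have h3 := hC.lt q' (hQP q' hq') ⟨0, by omega⟩
      rw [h2, h1] at h3
      exact lt_irrefl _ h3
    · exact Prod.ext h1 h2.symm

theorem exists_dart {V : Type} {G : SimpleGraph V} {a b : V} (w : G.Walk a b) (h : a ≠ b) :
    ∃ e : G.Dart, e.fst = a := by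
  cases w with
  | nil => exact absurd rfl h
  | cons hadj p => exact ⟨⟨(_, _), hadj⟩, rfl⟩

theorem thm : Pool.Agent.Helper39.SQ.G_CORE := by
  classical
  intro d D N h K g θ hd hh hθ hcnt M P hC V hV G f W hinj hWW hMW
  let _ : Fintype V := Fintype.ofFinite V
  let S : Pt d → V → Finset (Pt d × Pt d) := fun x u =>
    P.filter fun q => q.1 = x ∧ u ∈ (W q).support
  have hS : ∀ x u q, q ∈ S x u ↔ q ∈ P ∧ q.1 = x ∧ u ∈ (W q).support := by
    intro x u q
    exact Finset.mem_filter
  -- (2)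
  have hA : ∀ u : V, (M.filter fun x => θ ≤ (S x u).card).card < K := by
    intro u
    by_contra hcon
    push Not at hcon
    obtain ⟨T, hT, hTK⟩ := Finset.exists_subset_card_eq hcon
    have hTM : ∀ x ∈ T, x ∈ M := fun x hx => (Finset.mem_filter.1 (hT hx)).1
    have hTθ : ∀ x ∈ T, θ ≤ (S x u).card := fun x hx => (Finset.mem_filter.1 (hT hx)).2
    obtain ⟨z, hz⟩ : ∃ z : Pt d, ∀ c, z c = T.sup (fun x => x c) := ⟨_, fun _ => rfl⟩
    have hzg : ∀ c, z c < 2 ^ D := by
      intro c
      rw [hz c, Finset.sup_lt_iff (by rw [Nat.bot_eq_zero]; positivity)]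
      intro x hx
      exact hC.grid x (hTM x hx) c
    obtain ⟨x, hxT, hx⟩ : ∃ x ∈ T, ¬ N + h ≤ Pool.Agent.Helper71.SN.tot 2 D x z := by
      by_contra hc2
      push Not at hc2
      have h1 : T ⊆ M.filter fun x => N + h ≤ Pool.Agent.Helper71.SN.tot 2 D x z := by
        intro x hx
        exact Finset.mem_filter.2 ⟨hTM x hx, hc2 x hx⟩
      have h2 := Finset.card_le_card h1
      have h3 := hC.few z hzg
      omega
    push Not at hx
    have hle : ∀ x' ∈ T, ∀ c, x' c ≤ z c := by
      intro x' hx' c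
      rw [hz c]
      exact Finset.le_sup (f := fun x : Pt d => x c) hx'
    have h4 : (S x u).card < θ := by
      refine count hd hcnt hC x (S x u) (fun q hq => ((hS x u q).1 hq).1)
        (fun q hq => ((hS x u q).1 hq).2.1) (fun c => agr 2 D (x c) (z c)) hx ?_
      intro q hq
      obtain ⟨hqP, hqx, hqu⟩ := (hS x u q).1 hq
      have h5 : (Finset.univ.filter fun c => agr 2 D (x c) (z c) < agr 2 D (q.1 c) (q.2 c)) ⊆
          T.biUnion fun x' => Finset.univ.filter fun c => q.2 c < x' c := by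
        intro c hc
        rw [Finset.mem_filter] at hc
        rw [Finset.mem_biUnion]
        have h6 : q.2 c < z c := by
          by_contra h7
          push Not at h7
          have h8 := agr_mono (b := 2) (D := D) (hle x hxT c) h7
            (hC.grid _ (hC.mem2 q hqP) c)
          have h9 := hc.2
          rw [hqx] at h9
          omega
        rw [hz c, Finset.lt_sup_iff] at h6
        obtain ⟨x', hx', h7⟩ := h6
        exact ⟨x', hx', Finset.mem_filter.2 ⟨Finset.mem_univ _, h7⟩⟩
      refine (Finset.card_le_card h5).trans (Finset.card_biUnion_le.trans ?_)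
      rw [← hTK, ← smul_eq_mul]
      refine Finset.sum_le_card_nsmul T _ g fun x' hx' => ?_
      have h10 : 0 < (S x' u).card := lt_of_lt_of_le (by omega) (hTθ x' hx')
      obtain ⟨p, hp⟩ := Finset.card_pos.1 h10
      obtain ⟨hpP, hpx, hpu⟩ := (hS x' u p).1 hp
      have h11 := hWW p hpP q hqP u hpu hqu
      rw [hpx] at h11
      exact h11
    have := hTθ x hxT
    omega
  -- (3)
  have hK : ∀ p ∈ P, 1 ≤ K := by
    intro p hp
    have := hA (f p.1)
    omega
  have h3 : ∀ p ∈ P, (S p.1 (f p.2)).card < θ := by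
    intro p hp
    refine count hd hcnt hC p.1 (S p.1 (f p.2)) (fun q hq => ((hS _ _ q).1 hq).1)
      (fun q hq => ((hS _ _ q).1 hq).2.1) (fun c => agr 2 D (p.1 c) (p.2 c)) ?_ ?_
    · have h5 : ∑ c, agr 2 D (p.1 c) (p.2 c) = N := hC.tot p hp
      rw [h5]
      omega
    · intro q hq
      obtain ⟨hqP, hqx, hqu⟩ := (hS _ _ q).1 hq
      have h4 := hMW p.2 (hC.mem2 p hp) q hqP hqu
      have h5 : (Finset.univ.filter fun c =>
          agr 2 D (p.1 c) (p.2 c) < agr 2 D (q.1 c) (q.2 c)).card ≤ exc p.2 q.2 := by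
        unfold exc
        refine Finset.card_le_card fun c hc => ?_
        rw [Finset.mem_filter] at hc ⊢
        refine ⟨Finset.mem_univ _, ?_⟩
        by_contra h7
        push Not at h7
        have h8 := agr_mono (b := 2) (D := D) (hC.lt p hp c).le h7
          (hC.grid _ (hC.mem2 q hqP) c)
        have h9 := hc.2
        rw [hqx] at h9
        omega
      have h6 := hK p hp
      calc _ ≤ exc p.2 q.2 := h5
        _ ≤ g := h4
        _ ≤ K * g := Nat.le_mul_of_pos_left g h6
  -- (4)
  obtain ⟨E, hE⟩ : ∃ E, E = G.edgeSet.ncard := ⟨_, rfl⟩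
  have hdarts : Fintype.card G.Dart = 2 * E := by
    rw [SimpleGraph.dart_card_eq_twice_card_edges, hE]
    congr 1
    rw [← SimpleGraph.coe_edgeFinset, Set.ncard_coe_finset]
  have hP1 : (P.filter fun p => (S p.1 (f p.1)).card < θ).card ≤ θ * (2 * E) := by
    set P₁ := P.filter fun p => (S p.1 (f p.1)).card < θ with hP₁
    have h5 := Finset.card_le_mul_card_image (f := Prod.fst) P₁ θ (by
      intro x hx
      rw [Finset.mem_image] at hx
      obtain ⟨p, hp, rfl⟩ := hx
      rw [hP₁, Finset.mem_filter] at hp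
      refine (Finset.card_le_card ?_).trans hp.2.le
      intro q hq
      rw [Finset.mem_filter, hP₁, Finset.mem_filter] at hq
      rw [hS]
      refine ⟨hq.1.1, hq.2, ?_⟩
      rw [← hq.2]
      exact (W q).start_mem_support)
    refine h5.trans (Nat.mul_le_mul_left _ ?_)
    rw [← hdarts]
    have h6 : ∀ x ∈ P₁.image Prod.fst, ∃ e : G.Dart, e.fst = f x := by
      intro x hx
      rw [Finset.mem_image] at hx
      obtain ⟨p, hp, rfl⟩ := hx
      rw [hP₁, Finset.mem_filter] at hp
      refine exists_dart (W p) fun he => ?_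
      have h7 := hinj (hC.mem1 p hp.1) (hC.mem2 p hp.1) he
      have h8 := hC.lt p hp.1 ⟨0, by omega⟩
      rw [h7] at h8
      exact lt_irrefl _ h8
    have h7 : ∀ x ∈ P₁.image Prod.fst, x ∈ M := by
      intro x hx
      rw [Finset.mem_image] at hx
      obtain ⟨p, hp, rfl⟩ := hx
      rw [hP₁, Finset.mem_filter] at hp
      exact hC.mem1 p hp.1
    rcases (P₁.image Prod.fst).eq_empty_or_nonempty with h8 | ⟨x₀, hx₀⟩
    · rw [h8, Finset.card_empty]; exact Nat.zero_le _
    obtain ⟨e₀, -⟩ := h6 x₀ hx₀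
    rw [← Finset.card_univ]
    apply Finset.card_le_card_of_injOn
      (fun x => if hx : x ∈ P₁.image Prod.fst then (h6 x hx).choose else e₀)
    · intro x _
      exact Finset.mem_coe.2 (Finset.mem_univ _)
    · intro x hx y hy hxy
      rw [Finset.mem_coe] at hx hy
      simp only [dif_pos hx, dif_pos hy] at hxy
      have h9 := (h6 x hx).choose_spec
      have h10 := (h6 y hy).choose_spec
      rw [hxy, h10] at h9
      exact (hinj (h7 y hy) (h7 x hx) h9).symm
  -- (5)
  have hc : ∀ p ∈ P.filter (fun p => ¬ (S p.1 (f p.1)).card < θ), ∃ e ∈ (W p).darts,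
      θ ≤ (S p.1 e.fst).card ∧ (S p.1 e.snd).card < θ := by
    intro p hp
    rw [Finset.mem_filter] at hp
    have h5 := h3 p hp.1
    have h6 := hp.2
    push Not at h6
    obtain ⟨e, he, h7, h8⟩ := exists_crossing
      (fun v => -(((S p.1 v).card : ℕ) : ℝ)) (1 - (θ : ℝ)) (W p) (by
        have : (θ : ℝ) ≤ ((S p.1 (f p.1)).card : ℝ) := by exact_mod_cast h6
        linarith) (by
        have : ((S p.1 (f p.2)).card : ℝ) + 1 ≤ (θ : ℝ) := by exact_mod_cast h5
        linarith)
    refine ⟨e, he, ?_, ?_⟩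
    · have : (θ : ℝ) < ((S p.1 e.fst).card : ℝ) + 1 := by linarith
      have h9 : θ < (S p.1 e.fst).card + 1 := by exact_mod_cast this
      omega
    · have : ((S p.1 e.snd).card : ℝ) + 1 ≤ (θ : ℝ) := by linarith
      have h9 : (S p.1 e.snd).card + 1 ≤ θ := by exact_mod_cast this
      omega
  have hP2 : (P.filter fun p => ¬ (S p.1 (f p.1)).card < θ).card ≤ K * θ * (2 * E) := by
    set P₂ := P.filter fun p => ¬ (S p.1 (f p.1)).card < θ with hP₂
    rcases P₂.eq_empty_or_nonempty with h8 | ⟨p₀, hp₀⟩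
    · rw [h8, Finset.card_empty]; exact Nat.zero_le _
    obtain ⟨e₀, -⟩ := hc p₀ hp₀
    obtain ⟨F, hF⟩ : ∃ F : Pt d × Pt d → G.Dart, ∀ p ∈ P₂, F p ∈ (W p).darts ∧
        θ ≤ (S p.1 (F p).fst).card ∧ (S p.1 (F p).snd).card < θ := by
      refine ⟨fun p => if hp : p ∈ P₂ then (hc p hp).choose else e₀, fun p hp => ?_⟩
      simp only [dif_pos hp]
      exact (hc p hp).choose_spec
    have hfib : ∀ e ∈ P₂.image F, (P₂.filter fun p => F p = e).card ≤ K * θ := by
      intro e _
      have h9 := Finset.card_le_mul_card_image (f := Prod.fst) (P₂.filter fun p => F p = e) θ (by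
        intro x hx
        rw [Finset.mem_image] at hx
        obtain ⟨p, hp, rfl⟩ := hx
        rw [Finset.mem_filter] at hp
        have h10 := (hF p hp.1).2.2
        rw [hp.2] at h10
        refine (Finset.card_le_card ?_).trans h10.le
        intro q hq
        rw [Finset.mem_filter, Finset.mem_filter] at hq
        rw [hS]
        have h11 := (hF q hq.1.1).1
        rw [hq.1.2] at h11
        refine ⟨?_, hq.2, (W q).dart_snd_mem_support_of_mem_darts h11⟩
        have h12 := hq.1.1
        rw [hP₂, Finset.mem_filter] at h12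
        exact h12.1)
      refine h9.trans ?_
      rw [mul_comm]
      refine Nat.mul_le_mul_right _ ?_
      refine le_trans (Finset.card_le_card ?_) (hA e.fst).le
      intro x hx
      rw [Finset.mem_image] at hx
      obtain ⟨p, hp, rfl⟩ := hx
      rw [Finset.mem_filter] at hp
      rw [Finset.mem_filter]
      have h10 := (hF p hp.1).2.1
      rw [hp.2] at h10
      refine ⟨?_, h10⟩
      have h12 := hp.1
      rw [hP₂, Finset.mem_filter] at h12
      exact hC.mem1 p h12.1
    refine (Finset.card_le_mul_card_image P₂ (K * θ) hfib).trans (Nat.mul_le_mul_left _ ?_)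
    rw [← hdarts]
    exact Finset.card_le_univ _
  have h6 := Finset.card_filter_add_card_filter_not (s := P)
    (fun p => (S p.1 (f p.1)).card < θ)
  rw [← hE]
  calc P.card = (P.filter fun p => (S p.1 (f p.1)).card < θ).card +
        (P.filter fun p => ¬ (S p.1 (f p.1)).card < θ).card := h6.symm
    _ ≤ θ * (2 * E) + K * θ * (2 * E) := Nat.add_le_add hP1 hP2
    _ = 2 * (K + 1) * θ * E := by ring

end Pool.Agent.Helper93.SQ.CORE
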